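import Pool.Agent.Helper69.ST.Goals

/-! # Project ST, packet BF: the boundary function of a power series in `H²` -/

set_option autoImplicit false

open MeasureTheory Set Complex Metric Filter AddCircle
open scoped ContDiff Topology ENNReal

namespace Pool.Agent.Helper93.ST.BF

open Pool.Agent.Helper69.ST

local instance factPi : Fact (0 < 2 * Real.pi) := ⟨Real.two_pi_pos⟩

/-- extension by zero -/
noncomputable def bz (c : ℕ → ℂ) (k : ℤ) : ℂ := if 0 ≤ k then c k.toNat else 0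

theorem bz_nat (c : ℕ → ℂ) (n : ℕ) : bz c n = c n := by simp [bz]

theorem bz_out (c : ℕ → ℂ) (k : ℤ) (hk : k ∉ Set.range ((↑) : ℕ → ℤ)) : bz c k = 0 := by
  unfold bz
  rw [if_neg]
  intro h
  exact hk ⟨k.toNat, Int.toNat_of_nonneg h⟩

theorem bz_mem {c : ℕ → ℂ} (hc : Summable (fun n => ‖c n‖ ^ 2)) : Memℓp (bz c) 2 := by
  refine memℓp_gen ?_
  have h : Function.Injective ((↑) : ℕ → ℤ) := Nat.cast_injective
  rw [← h.summable_iff]
  · simpa [Function.comp_def, bz_nat] using hc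
  · intro k hk
    rw [bz_out c k hk]
    simp

/-- the `L²` function with the coefficients `c` -/
noncomputable def lf (c : ℕ → ℂ) (hc : Summable (fun n => ‖c n‖ ^ 2)) :
    Lp ℂ 2 (haarAddCircle (T := 2 * Real.pi)) :=
  fourierBasis.repr.symm ⟨bz c, bz_mem hc⟩

theorem coeff_lf (c : ℕ → ℂ) (hc : Summable (fun n => ‖c n‖ ^ 2)) (k : ℤ) :
    fourierCoeff (lf c hc) k = bz c k := by
  rw [← fourierBasis_repr]
  unfold lf
  rw [LinearIsometryEquiv.apply_symm_apply]

theorem tsum_bz (c : ℕ → ℂ) : ∑' k : ℤ, ‖bz c k‖ ^ 2 = ∑' n : ℕ, ‖c n‖ ^ 2 := by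
  have h : Function.Injective ((↑) : ℕ → ℤ) := Nat.cast_injective
  rw [← h.tsum_eq]
  · simp only [bz_nat]
  · intro k hk
    by_contra h1
    apply hk
    simp only [bz_out c k h1]
    simp

theorem int_circle (g : AddCircle (2 * Real.pi) → ℝ) :
    ∫ t in (-Real.pi)..Real.pi, g (t : AddCircle (2 * Real.pi)) =
      2 * Real.pi * ∫ x, g x ∂(haarAddCircle (T := 2 * Real.pi)) := by
  have h := AddCircle.intervalIntegral_preimage (2 * Real.pi) (-Real.pi) g
  have h1 : -Real.pi + 2 * Real.pi = Real.pi := by ring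
  rw [h1] at h
  rw [h, AddCircle.volume_eq_smul_haarAddCircle, integral_smul_measure,
    ENNReal.toReal_ofReal Real.two_pi_pos.le, smul_eq_mul]

theorem parseval (c : ℕ → ℂ) (hc : Summable (fun n => ‖c n‖ ^ 2)) :
    ∫ t in (-Real.pi)..Real.pi, ‖lf c hc (t : AddCircle (2 * Real.pi))‖ ^ 2 =
      2 * Real.pi * ∑' n : ℕ, ‖c n‖ ^ 2 := by
  rw [int_circle (fun x => ‖lf c hc x‖ ^ 2), ← tsum_sq_fourierCoeff]
  simp only [coeff_lf]
  rw [tsum_bz]

theorem integrable_sq (F : Lp ℂ 2 (haarAddCircle (T := 2 * Real.pi))) :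
    IntervalIntegrable (fun t : ℝ => ‖F (t : AddCircle (2 * Real.pi))‖ ^ 2) volume
      (-Real.pi) Real.pi := by
  have h1 : Integrable (fun x => ‖F x‖ ^ 2) (haarAddCircle (T := 2 * Real.pi)) :=
    (Lp.memLp F).integrable_norm_pow (by norm_num)
  have h2 : Integrable (fun x => ‖F x‖ ^ 2) (volume : Measure (AddCircle (2 * Real.pi))) := by
    rw [AddCircle.volume_eq_smul_haarAddCircle]
    exact h1.smul_measure ENNReal.ofReal_ne_top
  have h3 := (AddCircle.measurePreserving_mk (2 * Real.pi) (-Real.pi)).integrable_comp_of_integrable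
    h2
  have h4 : -Real.pi + 2 * Real.pi = Real.pi := by ring
  rw [h4] at h3
  rw [intervalIntegrable_iff_integrableOn_Ioc_of_le (by linarith [Real.pi_pos])]
  exact h3

/-- the continuous function with absolutely summable coefficients -/
noncomputable def cf (c : ℕ → ℂ) : C(AddCircle (2 * Real.pi), ℂ) :=
  ∑' n : ℕ, c n • fourier (n : ℤ)

theorem cf_summable {c : ℕ → ℂ} (hc : Summable (fun n => ‖c n‖)) :
    Summable (fun n : ℕ => c n • (fourier (T := 2 * Real.pi) (n : ℤ))) := by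
  refine Summable.of_norm ?_
  simpa [norm_smul, fourier_norm] using hc

theorem cf_apply {c : ℕ → ℂ} (hc : Summable (fun n => ‖c n‖)) (t : ℝ) :
    cf c (t : AddCircle (2 * Real.pi)) = ∑' n : ℕ, c n * exp (t * I) ^ n := by
  have h := (cf_summable hc).hasSum
  have h1 := ContinuousMap.hasSum_apply h (t : AddCircle (2 * Real.pi))
  have h2 : cf c (t : AddCircle (2 * Real.pi)) =
      (∑' n : ℕ, c n • (fourier (T := 2 * Real.pi) (n : ℤ))) (t : AddCircle (2 * Real.pi)) := rfl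
  rw [h2, ← h1.tsum_eq]
  refine tsum_congr fun n => ?_
  rw [ContinuousMap.smul_apply, smul_eq_mul, fourier_coe_apply, ← Complex.exp_nat_mul]
  congr 2
  have hpi : (Real.pi : ℂ) ≠ 0 := by exact_mod_cast Real.pi_ne_zero
  push_cast
  field_simp

theorem toLp_cf {c : ℕ → ℂ} (hc : Summable (fun n => ‖c n‖))
    (hc2 : Summable (fun n => ‖c n‖ ^ 2)) :
    ContinuousMap.toLp (E := ℂ) 2 (haarAddCircle (T := 2 * Real.pi)) ℂ (cf c) = lf c hc2 := by
  have h1 := (cf_summable hc).hasSum.mapL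
    (ContinuousMap.toLp (E := ℂ) 2 (haarAddCircle (T := 2 * Real.pi)) ℂ)
  have h2 : HasSum (fun n : ℕ => c n • fourierBasis (T := 2 * Real.pi) (n : ℤ))
      (ContinuousMap.toLp (E := ℂ) 2 (haarAddCircle (T := 2 * Real.pi)) ℂ (cf c)) := by
    refine h1.congr_fun ?_
    intro n
    rw [coe_fourierBasis, map_smul]
  have h3 := (fourierBasis (T := 2 * Real.pi)).hasSum_repr_symm ⟨bz c, bz_mem hc2⟩
  have h : Function.Injective ((↑) : ℕ → ℤ) := Nat.cast_injective
  have h4 : HasSum (fun n : ℕ => c n • fourierBasis (T := 2 * Real.pi) (n : ℤ)) (lf c hc2) := by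
    have h5 := (h.hasSum_iff (f := fun k : ℤ => bz c k • fourierBasis (T := 2 * Real.pi) k)
      (a := lf c hc2) (by
        intro k hk
        rw [bz_out c k hk, zero_smul])).2 h3
    refine h5.congr_fun ?_
    intro n
    simp only [Function.comp_apply, bz_nat]
  exact h2.unique h4

theorem lf_sub {c d : ℕ → ℂ} (hc : Summable (fun n => ‖c n‖ ^ 2))
    (hd : Summable (fun n => ‖d n‖ ^ 2)) (hcd : Summable (fun n => ‖c n - d n‖ ^ 2)) :
    lf c hc - lf d hd = lf (fun n => c n - d n) hcd := by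
  unfold lf
  rw [← map_sub]
  congr 1
  refine lp.ext (funext fun k => ?_)
  simp only [lp.coeFn_sub, Pi.sub_apply]
  unfold bz
  split_ifs <;> simp

theorem dist_cf {c d : ℕ → ℂ} (hc1 : Summable (fun n => ‖c n‖))
    (hc : Summable (fun n => ‖c n‖ ^ 2))
    (hd : Summable (fun n => ‖d n‖ ^ 2)) (hcd : Summable (fun n => ‖c n - d n‖ ^ 2)) :
    ∫ t in (-Real.pi)..Real.pi,
      ‖(∑' n : ℕ, c n * exp (t * I) ^ n) - lf d hd (t : AddCircle (2 * Real.pi))‖ ^ 2 =
      2 * Real.pi * ∑' n : ℕ, ‖c n - d n‖ ^ 2 := by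
  simp only [← cf_apply hc1]
  rw [int_circle (fun x => ‖cf c x - lf d hd x‖ ^ 2), ← parseval (fun n => c n - d n) hcd,
    int_circle (fun x => ‖lf (fun n => c n - d n) hcd x‖ ^ 2)]
  congr 1
  refine integral_congr_ae ?_
  have h1 := ContinuousMap.coeFn_toLp (E := ℂ) (p := 2) (haarAddCircle (T := 2 * Real.pi))
    (𝕜 := ℂ) (cf c)
  rw [toLp_cf hc1 hc] at h1
  have h2 := Lp.coeFn_sub (lf c hc) (lf d hd)
  rw [lf_sub hc hd hcd] at h2
  filter_upwards [h1, h2] with x hx1 hx2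
  rw [hx2, Pi.sub_apply, hx1]

theorem t : S_BF := by
  intro β hβ
  refine ⟨fun t => lf β hβ (t : AddCircle (2 * Real.pi)), ?_, ?_, ?_, ?_, ?_⟩
  · exact (Lp.stronglyMeasurable (lf β hβ)).measurable.comp AddCircle.measurable_mk'
  · intro t
    rw [AddCircle.coe_add_period]
  · exact integrable_sq (lf β hβ)
  · have key : ∀ ρ : ℝ, 0 < ρ → ρ < 1 →
        ∫ t in (-Real.pi)..Real.pi, ‖hfun 1 β (ρ * exp (t * I)) -
          lf β hβ (t : AddCircle (2 * Real.pi))‖ ^ 2 =
        2 * Real.pi * ∑' n : ℕ, ‖β n * (ρ : ℂ) ^ n - β n‖ ^ 2 := by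
      intro ρ h0 h1
      have hp : ∀ n : ℕ, ‖(ρ : ℂ) ^ n‖ = ρ ^ n := by
        intro n
        rw [norm_pow, Complex.norm_real, Real.norm_of_nonneg h0.le]
      have hρ2 : Summable (fun n : ℕ => (ρ ^ 2) ^ n) :=
        summable_geometric_of_lt_one (by positivity) (by nlinarith)
      have s1 : Summable (fun n => ‖β n * (ρ : ℂ) ^ n‖) := by
        refine Summable.of_nonneg_of_le (fun n => norm_nonneg _) (fun n => ?_) (hβ.add hρ2)
        rw [norm_mul, hp, ← pow_mul, mul_comm 2 n, pow_mul]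
        nlinarith [sq_nonneg (‖β n‖ - ρ ^ n), norm_nonneg (β n), pow_pos h0 n,
          mul_nonneg (norm_nonneg (β n)) (pow_pos h0 n).le]
      have s2 : Summable (fun n => ‖β n * (ρ : ℂ) ^ n‖ ^ 2) := by
        refine Summable.of_nonneg_of_le (fun n => by positivity) (fun n => ?_) hβ
        rw [norm_mul, hp]
        have h2 : ρ ^ n ≤ 1 := pow_le_one₀ h0.le h1.le
        have h3 : ‖β n‖ * ρ ^ n ≤ ‖β n‖ := mul_le_of_le_one_right (norm_nonneg _) h2
        exact pow_le_pow_left₀ (by positivity) h3 2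
      have s3 : Summable (fun n => ‖β n * (ρ : ℂ) ^ n - β n‖ ^ 2) := by
        refine Summable.of_nonneg_of_le (fun n => by positivity) (fun n => ?_)
          ((s2.add hβ).mul_left 2)
        have h4 := norm_sub_le (β n * (ρ : ℂ) ^ n) (β n)
        have h5 : ‖β n * (ρ : ℂ) ^ n - β n‖ ^ 2 ≤ (‖β n * (ρ : ℂ) ^ n‖ + ‖β n‖) ^ 2 :=
          pow_le_pow_left₀ (norm_nonneg _) h4 2
        nlinarith [sq_nonneg (‖β n * (ρ : ℂ) ^ n‖ - ‖β n‖)]
      rw [← dist_cf s1 s2 hβ s3]
      refine intervalIntegral.integral_congr fun t _ => ?_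
      have h6 : hfun 1 β (ρ * exp (t * I)) =
          ∑' n : ℕ, β n * (ρ : ℂ) ^ n * exp (t * I) ^ n := by
        unfold hfun
        refine tsum_congr fun n => ?_
        rw [one_mul, mul_pow]
        ring
      simp only [h6]
    have hlim : Tendsto (fun ρ : ℝ => 2 * Real.pi * ∑' n : ℕ, ‖β n * (ρ : ℂ) ^ n - β n‖ ^ 2)
        (𝓝[<] 1) (𝓝 0) := by
      have h7 : Tendsto (fun ρ : ℝ => ∑' n : ℕ, ‖β n * (ρ : ℂ) ^ n - β n‖ ^ 2)
          (𝓝[<] 1) (𝓝 (∑' n : ℕ, (0 : ℝ))) := by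
        refine tendsto_tsum_of_dominated_convergence (bound := fun n => ‖β n‖ ^ 2) hβ ?_ ?_
        · intro n
          have h8 : Continuous (fun ρ : ℝ => ‖β n * (ρ : ℂ) ^ n - β n‖ ^ 2) := by fun_prop
          have h9 := (h8.tendsto 1).mono_left (nhdsWithin_le_nhds (s := Iio (1 : ℝ)))
          simpa using h9
        · have h10 : ∀ᶠ ρ : ℝ in 𝓝[<] 1, 0 < ρ ∧ ρ < 1 := by
            have h11 : Ioo (0 : ℝ) 1 ∈ 𝓝[<] (1 : ℝ) := Ioo_mem_nhdsLT (by norm_num)
            filter_upwards [h11] with ρ hρ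
            exact hρ
          filter_upwards [h10] with ρ hρ n
          have h12 : β n * (ρ : ℂ) ^ n - β n = -(β n * ((1 - ρ ^ n : ℝ) : ℂ)) := by
            push_cast
            ring
          have h13 : ρ ^ n ≤ 1 := pow_le_one₀ hρ.1.le hρ.2.le
          have h14 : 0 < ρ ^ n := pow_pos hρ.1 n
          have h15 : 0 ≤ 1 - ρ ^ n := by linarith
          rw [h12, norm_neg, norm_mul, Complex.norm_real, Real.norm_of_nonneg h15,
            Real.norm_of_nonneg (by positivity)]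
          refine pow_le_pow_left₀ (mul_nonneg (norm_nonneg _) (by linarith)) ?_ 2
          exact mul_le_of_le_one_right (norm_nonneg _) (by linarith)
      rw [tsum_zero] at h7
      simpa using h7.const_mul (2 * Real.pi)
    refine hlim.congr' ?_
    have h11 : Ioo (0 : ℝ) 1 ∈ 𝓝[<] (1 : ℝ) := Ioo_mem_nhdsLT (by norm_num)
    filter_upwards [h11] with ρ hρ
    exact (key ρ hρ.1 hρ.2).symm
  · exact parseval β hβ

end Pool.Agent.Helper93.ST.BF
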