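import Pool.Agent.Helper69.ST.GoalsR

/-! # Project ST, packet LC: a Lipschitz domain near a boundary point -/

set_option autoImplicit false

open MeasureTheory Set Complex Metric Filter
open scoped ContDiff Topology ENNReal

namespace Pool.Agent.Helper93.ST.LC

open Pool.Agent.Helper69.ST Pool.Agent.Helper45.Stek

/-- coordinates -/
noncomputable def H (p a : ℂ) (ha : a ≠ 0) : ℝ × ℝ ≃ₜ ℂ :=
  (Complex.equivRealProdCLM.symm.toHomeomorph.trans (Homeomorph.mulLeft₀ a ha)).trans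
    (Homeomorph.addLeft p)

theorem H_apply (p a : ℂ) (ha : a ≠ 0) (x : ℝ × ℝ) :
    H p a ha x = p + a * (x.1 + x.2 * I) := by
  have h : Complex.equivRealProdCLM.symm x = x.1 + x.2 * I := by
    apply Complex.ext <;> simp
  show p + a * Complex.equivRealProdCLM.symm x = _
  rw [h]

theorem Box_eq (p a : ℂ) (ha : a ≠ 0) (ρ r : ℝ) :
    Box p a ρ r = H p a ha '' (Ioo (-ρ) ρ ×ˢ Ioo (-r) r) := by
  ext z
  constructor
  · rintro ⟨s, t, hs, ht, rfl⟩
    exact ⟨(s, t), ⟨abs_lt.1 hs, abs_lt.1 ht⟩, H_apply p a ha (s, t)⟩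
  · rintro ⟨⟨s, t⟩, ⟨hs, ht⟩, rfl⟩
    exact ⟨s, t, abs_lt.2 hs, abs_lt.2 ht, H_apply p a ha (s, t)⟩

theorem below {g : ℝ → ℝ} (hg : Continuous g) {r : ℝ} {A : Set (ℝ × ℝ)}
    (hA : ∀ s t : ℝ, |s| < r → |t| < r → ((s, t) ∈ A ↔ g s < t)) {s t : ℝ} (hs : |s| < r)
    (ht : |t| < r) (h : t < g s) : (s, t) ∉ closure A := by
  intro hc
  have c1 : Continuous (fun x : ℝ × ℝ => |x.1|) := by fun_prop
  have c2 : Continuous (fun x : ℝ × ℝ => |x.2|) := by fun_prop
  have c3 : Continuous (fun x : ℝ × ℝ => g x.1) := by fun_prop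
  have ho : IsOpen {x : ℝ × ℝ | |x.1| < r ∧ |x.2| < r ∧ x.2 < g x.1} :=
    (isOpen_lt c1 continuous_const).inter
      ((isOpen_lt c2 continuous_const).inter (isOpen_lt continuous_snd c3))
  obtain ⟨x, ⟨h1, h2, h3⟩, h4⟩ := mem_closure_iff.1 hc _ ho ⟨hs, ht, h⟩
  have := (hA x.1 x.2 h1 h2).1 h4
  exact absurd h3 (not_lt.2 this.le)

theorem above {g : ℝ → ℝ} {r : ℝ} {A : Set (ℝ × ℝ)}
    (hA : ∀ s t : ℝ, |s| < r → |t| < r → ((s, t) ∈ A ↔ g s < t)) {s t : ℝ} (hs : |s| < r)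
    (ht : |t| < r) (h : g s ≤ t) : (s, t) ∈ closure A := by
  have h1 : Tendsto (fun t' : ℝ => (s, t')) (𝓝[>] t) (𝓝 (s, t)) := by
    have h2 : Continuous (fun t' : ℝ => (s, t')) := by fun_prop
    exact (h2.tendsto t).mono_left nhdsWithin_le_nhds
  refine mem_closure_of_tendsto h1 ?_
  have h3 : Ioo t r ∈ 𝓝[>] t := Ioo_mem_nhdsGT (abs_lt.1 ht).2
  filter_upwards [h3] with t' ht'
  exact (hA s t' hs (abs_lt.2 ⟨by linarith [(abs_lt.1 ht).1, ht'.1], ht'.2⟩)).2 (by linarith [ht'.1])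

theorem t : S_LC := by
  intro Ω hΩ p hp ε hε
  obtain ⟨a, r₀, L, g, ha, hr₀, hL, hg⟩ := hΩ.lip p hp
  have ha0 : a ≠ 0 := by
    intro h
    rw [h, norm_zero] at ha
    exact zero_ne_one ha
  have hcg : Continuous g := hL.continuous
  set A : Set (ℝ × ℝ) := H p a ha0 ⁻¹' Ω with hAdef
  have hmem : ∀ s t : ℝ, p + a * (s + t * I) = H p a ha0 (s, t) := fun s t =>
    (H_apply p a ha0 (s, t)).symm
  have hA0 : ∀ s t : ℝ, |s| < r₀ → |t| < r₀ → ((s, t) ∈ A ↔ g s < t) := by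
    intro s t hs ht
    rw [← hg s t hs ht, hmem]
    rfl
  have hclA : H p a ha0 ⁻¹' closure Ω = closure A := (H p a ha0).preimage_closure Ω
  have hp0 : H p a ha0 (0, 0) = p := by
    rw [H_apply]
    simp
  have h00 : |(0 : ℝ)| < r₀ := by rw [abs_zero]; exact hr₀
  have hg0 : g 0 = 0 := by
    have h1 : ¬ g 0 < 0 := by
      intro h
      have h2 := (hg 0 0 h00 h00).2 h
      rw [hmem, hp0] at h2
      have h3 : p ∉ interior Ω := hp.2
      rw [hΩ.isOpen.interior_eq] at h3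
      exact h3 h2
    have h2 : ¬ 0 < g 0 := by
      intro h
      refine below hcg hA0 h00 h00 h ?_
      rw [← hclA]
      show H p a ha0 (0, 0) ∈ closure Ω
      rw [hp0]
      exact hp.1
    exact le_antisymm (not_lt.1 h2) (not_lt.1 h1)
  obtain ⟨r, hr, hrr, hrε⟩ : ∃ r : ℝ, 0 < r ∧ r ≤ r₀ ∧ r ≤ ε :=
    ⟨min r₀ ε, lt_min hr₀ hε, min_le_left _ _, min_le_right _ _⟩
  have hL1 : (0 : ℝ) < L + 1 := by positivity
  obtain ⟨ρ, hρ, hρr, hLρ⟩ : ∃ ρ : ℝ, 0 < ρ ∧ ρ ≤ r ∧ L * ρ < r := by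
    refine ⟨r / (L + 1), by positivity, ?_, ?_⟩
    · rw [div_le_iff₀ hL1]
      nlinarith [L.coe_nonneg]
    · rw [← mul_div_assoc, div_lt_iff₀ hL1]
      nlinarith [L.coe_nonneg]
  have hgs : ∀ s : ℝ, |s| < ρ → |g s| < r := by
    intro s hs
    have h1 := hL.dist_le_mul s 0
    rw [hg0, Real.dist_eq, Real.dist_eq, sub_zero, sub_zero] at h1
    have h2 : (L : ℝ) * |s| ≤ L * ρ := mul_le_mul_of_nonneg_left hs.le L.coe_nonneg
    linarith
  have hQ : ∀ s t : ℝ, |s| < ρ → |t| < r → |s| < r₀ ∧ |t| < r₀ := fun s t hs ht =>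
    ⟨by linarith, by linarith⟩
  -- the part of the box outside the closure
  have hD : (Ioo (-ρ) ρ ×ˢ Ioo (-r) r) \ closure A =
      {x : ℝ × ℝ | |x.1| < ρ ∧ |x.2| < r ∧ x.2 < g x.1} := by
    ext ⟨s, t⟩
    constructor
    · rintro ⟨⟨hs, ht⟩, hn⟩
      have hs' := abs_lt.2 hs
      have ht' := abs_lt.2 ht
      refine ⟨hs', ht', ?_⟩
      by_contra hlt
      exact hn (above hA0 (hQ s t hs' ht').1 (hQ s t hs' ht').2 (not_lt.1 hlt))
    · rintro ⟨hs, ht, hlt⟩
      exact ⟨⟨abs_lt.1 hs, abs_lt.1 ht⟩, below hcg hA0 (hQ s t hs ht).1 (hQ s t hs ht).2 hlt⟩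
  have hBD : Box p a ρ r \ closure Ω =
      H p a ha0 '' {x : ℝ × ℝ | |x.1| < ρ ∧ |x.2| < r ∧ x.2 < g x.1} := by
    rw [← hD, ← hclA, Box_eq p a ha0]
    ext z
    constructor
    · rintro ⟨⟨x, hx, rfl⟩, hn⟩
      exact ⟨x, ⟨hx, hn⟩, rfl⟩
    · rintro ⟨x, ⟨hx, hn⟩, rfl⟩
      exact ⟨⟨x, hx, rfl⟩, hn⟩
  refine ⟨a, ρ, r, L, g, ha, hρ, hρr, hrε, hL, ?_, ?_, ?_, ?_⟩
  · rw [Box_eq p a ha0]
    exact (H p a ha0).isOpenMap _ (isOpen_Ioo.prod isOpen_Ioo)
  · exact ⟨0, 0, by rw [abs_zero]; exact hρ, by rw [abs_zero]; exact hr, by simp⟩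
  · intro s t hs ht
    obtain ⟨hs0, ht0⟩ := hQ s t hs ht
    refine ⟨hg s t hs0 ht0, ?_, ?_⟩
    · have h1 : p + a * (s + t * I) ∈ closure Ω ↔ (s, t) ∈ closure A := by
        rw [← hclA, hmem]
        rfl
      rw [h1]
      constructor
      · intro h
        by_contra hlt
        exact below hcg hA0 hs0 ht0 (not_le.1 hlt) h
      · exact above hA0 hs0 ht0
    · rw [hBD, ← (H p a ha0).image_closure, hmem, (H p a ha0).injective.mem_set_image]
      constructor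
      · intro h
        by_contra hlt
        have ho : IsOpen {x : ℝ × ℝ | g x.1 < x.2} :=
          isOpen_lt (hcg.comp continuous_fst) continuous_snd
        obtain ⟨x, h1, h2⟩ := mem_closure_iff.1 h _ ho (not_le.1 hlt)
        exact absurd h2.2.2 (not_lt.2 (le_of_lt h1))
      · intro h
        have h1 : Tendsto (fun t' : ℝ => (s, t')) (𝓝[<] t) (𝓝 (s, t)) := by
          have h2 : Continuous (fun t' : ℝ => (s, t')) := by fun_prop
          exact (h2.tendsto t).mono_left nhdsWithin_le_nhds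
        refine mem_closure_of_tendsto h1 ?_
        have h3 : Ioo (-r) t ∈ 𝓝[<] t := Ioo_mem_nhdsLT (abs_lt.1 ht).1
        filter_upwards [h3] with t' ht'
        exact ⟨hs, abs_lt.2 ⟨ht'.1, by linarith [(abs_lt.1 ht).2, ht'.2]⟩, by
          show t' < g s
          linarith [ht'.2]⟩
  · rw [hBD]
    refine IsPreconnected.image ?_ _ (H p a ha0).continuous.continuousOn
    have him : {x : ℝ × ℝ | |x.1| < ρ ∧ |x.2| < r ∧ x.2 < g x.1} =
        (fun x : ℝ × ℝ => (x.1, -r + x.2 * (g x.1 + r))) '' (Ioo (-ρ) ρ ×ˢ Ioo (0 : ℝ) 1) := by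
      ext ⟨s, t⟩
      constructor
      · rintro ⟨hs, ht, hlt⟩
        have hgs1 := abs_lt.1 (hgs s hs)
        have hpos : 0 < g s + r := by linarith [hgs1.1]
        have ht1 := (abs_lt.1 ht).1
        simp only at hlt ht1
        refine ⟨(s, (t + r) / (g s + r)), ⟨abs_lt.1 hs, ?_, ?_⟩, ?_⟩
        · show 0 < (t + r) / (g s + r)
          exact div_pos (by linarith) hpos
        · show (t + r) / (g s + r) < 1
          rw [div_lt_one hpos]
          linarith
        · show (s, -r + (t + r) / (g s + r) * (g s + r)) = (s, t)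
          rw [div_mul_cancel₀ _ hpos.ne']
          simp
      · rintro ⟨⟨s', v⟩, ⟨hs, hv⟩, hx⟩
        have hx1 : s' = s := congrArg Prod.fst hx
        have hx2 : -r + v * (g s' + r) = t := congrArg Prod.snd hx
        subst hx1
        subst hx2
        have hs' : |s'| < ρ := abs_lt.2 hs
        have hgs1 := abs_lt.1 (hgs s' hs')
        have hpos : 0 < g s' + r := by linarith [hgs1.1]
        have hv0 : 0 < v := hv.1
        have hv1 : v < 1 := hv.2
        have h1 : 0 < v * (g s' + r) := mul_pos hv0 hpos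
        have h2 : v * (g s' + r) < g s' + r := by nlinarith
        refine ⟨hs', abs_lt.2 ⟨?_, ?_⟩, ?_⟩
        · show -r < -r + v * (g s' + r)
          linarith
        · show -r + v * (g s' + r) < r
          linarith [hgs1.2]
        · show -r + v * (g s' + r) < g s'
          linarith
    rw [him]
    refine IsPreconnected.image (isPreconnected_Ioo.prod isPreconnected_Ioo) _ ?_
    have : Continuous (fun x : ℝ × ℝ => (x.1, -r + x.2 * (g x.1 + r))) := by fun_prop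
    exact this.continuousOn

end Pool.Agent.Helper93.ST.LC
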